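import Pool.Agent.V7H45.CY.Spec
import Pool.Agent.W571.RT.LocM

/-!
# Project CYC, job LN: the local lemma

At a prime where the difference of two roots has valuation two and the reduction is not split all
the valuations are even.
-/

set_option autoImplicit false

namespace Pool.Agent.V7H83.CY

open Pool.Agent.W22.RK Pool.Agent.W342.RK2 Pool.Agent.W571.RT Pool.Agent.V7H45.CY

section loc

variable {p : ℕ} [hp : Fact p.Prime]

/-- the normalised case -/
lemma ln_core (hp2 : p ≠ 2) {A B x y : ℚ} (hA : A ≠ 0) (hB : B ≠ 0) (hy : y ≠ 0)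
    (hxy : y ^ 2 = x * (x - A) * (x - B)) (vA : padicValRat p A = 2) (vB : padicValRat p B = 0)
    (hns : ¬ IsSquare ((-B : ℚ) : ℚ_[p])) :
    Even (padicValRat p x) ∧ Even (padicValRat p (x - A)) ∧ Even (padicValRat p (x - B)) := by
  have hy2 : y ^ 2 ≠ 0 := pow_ne_zero 2 hy
  rw [hxy] at hy2
  have hx : x ≠ 0 := left_ne_zero_of_mul (left_ne_zero_of_mul hy2)
  have hxA : x - A ≠ 0 := right_ne_zero_of_mul (left_ne_zero_of_mul hy2)
  have hxB : x - B ≠ 0 := right_ne_zero_of_mul hy2
  have hsum := v_mul3 (p := p) hx hxA hxB hxy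
  have vnA : padicValRat p (-A) = 2 := by rw [v_neg, vA]
  have vnB : padicValRat p (-B) = 0 := by rw [v_neg, vB]
  have hnA : -A ≠ 0 := neg_ne_zero.2 hA
  have hnB : -B ≠ 0 := neg_ne_zero.2 hB
  -- valuations of the differences
  have a1 : padicValRat p x < 2 → padicValRat p (x - A) = padicValRat p x := by
    intro h
    have := v_add (p := p) hx hnA (by rwa [← sub_eq_add_neg]) (by rw [vnA]; exact h)
    rwa [← sub_eq_add_neg] at this
  have a2 : 2 < padicValRat p x → padicValRat p (x - A) = 2 := by
    intro h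
    have := v_add (p := p) hnA hx (by rw [add_comm, ← sub_eq_add_neg]; exact hxA)
      (by rw [vnA]; exact h)
    rw [add_comm, ← sub_eq_add_neg, vnA] at this
    exact this
  have b1 : padicValRat p x < 0 → padicValRat p (x - B) = padicValRat p x := by
    intro h
    have := v_add (p := p) hx hnB (by rwa [← sub_eq_add_neg]) (by rw [vnB]; exact h)
    rwa [← sub_eq_add_neg] at this
  have b2 : 0 < padicValRat p x → padicValRat p (x - B) = 0 := by
    intro h
    have := v_add (p := p) hnB hx (by rw [add_comm, ← sub_eq_add_neg]; exact hxB)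
      (by rw [vnB]; exact h)
    rw [add_comm, ← sub_eq_add_neg, vnB] at this
    exact this
  -- valuation one is impossible
  have key : padicValRat p x ≠ 1 := by
    intro h
    apply hns
    have h1 : IsSquare (((x - A) * x : ℚ) : ℚ_[p]) := by
      apply near hp2 hx
      right
      have e : x - A - x = -A := by ring
      rw [e, vnA, h]
      norm_num
    have h2 : IsSquare ((x - B : ℚ) : ℚ_[p]) := by
      apply sq_div (mul_ne_zero hxA hx) _ h1
      refine ⟨((y : ℚ) : ℚ_[p]), ?_⟩
      rw [← Rat.cast_mul]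
      congr 1
      rw [← pow_two, hxy]
      ring
    have h3 : IsSquare ((-B * (x - B) : ℚ) : ℚ_[p]) := by
      apply near hp2 hxB
      right
      have e : -B - (x - B) = -x := by ring
      rw [e, v_neg, h, b2 (by rw [h]; norm_num)]
      norm_num
    exact sq_div hxB h3 h2
  rcases lt_trichotomy (padicValRat p x) 0 with h | h | h
  · rw [a1 (by omega), b1 h] at hsum
    rw [a1 (by omega), b1 h]
    have : Even (padicValRat p x) := by
      rw [Int.even_iff]
      omega
    exact ⟨this, this, this⟩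
  · rw [a1 (by omega), h] at hsum
    rw [a1 (by omega), h]
    refine ⟨⟨0, rfl⟩, ⟨0, rfl⟩, ?_⟩
    rw [Int.even_iff]
    omega
  · rw [b2 h] at hsum ⊢
    rcases lt_trichotomy (padicValRat p x) 2 with h4 | h4 | h4
    · exact absurd (by omega) key
    · refine ⟨⟨1, by rw [h4]; norm_num⟩, ?_, ⟨0, rfl⟩⟩
      rw [Int.even_iff]
      omega
    · rw [a2 h4] at hsum ⊢
      refine ⟨?_, ⟨1, by norm_num⟩, ⟨0, rfl⟩⟩
      rw [Int.even_iff]
      omega

end loc

theorem t_LN : S_LN := by
  intro p _ A B x y hp2 hA hB hAB hy hxy H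
  rcases H with ⟨h1, h2, h3⟩ | ⟨h1, h2, h3⟩ | ⟨h1, h2, h3⟩
  · exact ln_core hp2 hA hB hy hxy h1 h2 h3
  · have := ln_core hp2 hB hA hy (by rw [hxy]; ring) h1 h2 h3
    exact ⟨this.1, this.2.2, this.2.1⟩
  · -- shift by `A`
    have e0 : padicValRat p (B - A) = 2 := by
      rw [← neg_sub A B, v_neg, h1]
    have e1 : padicValRat p (-A) = 0 := by rw [v_neg, h2]
    have := ln_core (p := p) (A := B - A) (B := -A) (x := x - A) (y := y) hp2
      (sub_ne_zero.2 (Ne.symm hAB)) (neg_ne_zero.2 hA) hy (by rw [hxy]; ring) e0 e1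
      (by rw [neg_neg]; exact h3)
    have e2 : x - A - (B - A) = x - B := by ring
    have e3 : x - A - -A = x := by ring
    rw [e2, e3] at this
    exact ⟨this.2.2, this.1, this.2.1⟩

end Pool.Agent.V7H83.CY
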