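import Pool.Agent.V7H45.CY.Spec
import Pool.Agent.V7H45.G8.Inp
import Pool.Agent.V7H45.G8.Exp
import Pool.Agent.V7H45.NS

/-!
# Project CYC, job T: sums of multiplicative weights over tuples of coprime integers
-/

set_option autoImplicit false

namespace Pool.Agent.V7H83.CY

open Finset Pool.Agent.W262.RK Pool.Agent.W108.RK Pool.Agent.W762.RK2 Pool.Agent.V7H45.G8
  Pool.Agent.V7H45.CY Pool.Agent.W655.RK

/-- the sum over the tuples of a multiplicative function is an Euler product -/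
theorem sum_Tup_prod {ι : Type} [Fintype ι] [DecidableEq ι] (z y : ℕ) (g : ι → ℕ → ℝ) :
    ∑ s ∈ Tup ι z y, ∏ j, pw (g j) (s j) = ∏ p ∈ PS z y, (1 + ∑ j, g j p) := by
  rw [sum_Tup, Finset.sum_congr rfl (fun l _ => prod_pw g l),
    ← Finset.prod_coe_sort (PS z y) (fun p => 1 + ∑ j, g j p)]
  have h : ∀ p : Pr z y, (1 + ∑ j, g j (p : ℕ)) = ∑ x : Option ι, x.elim 1 (fun i => g i p) := by
    intro p
    rw [Fintype.sum_option]
    rfl
  rw [Finset.prod_congr rfl (fun p _ => h p), Finset.prod_univ_sum, Fintype.piFinset_univ]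

lemma gdcD (D : ℤ) (hD : D = 0 ∨ D = 2 ∨ D = -1 ∨ D = 3 ∨ D = -3) (z : ℕ) (hz : 4 ≤ z) :
    ∃ C : ℝ, ∀ y, z < y → ∑ p ∈ PS z y, Jr D p / (p : ℝ) ≤ C := by
  have key : ∀ D : ℤ, D ≠ 0 → ¬ IsSquare D → D.natAbs ≤ z →
      ∃ C : ℝ, ∀ y, z < y → ∑ p ∈ PS z y, Jr D p / (p : ℝ) ≤ C := fun D h1 h2 h3 =>
    Pool.Agent.V7H45.NS.nonsq_bound D h1 h2 z h3 (by omega)
  have hneg : ∀ D : ℤ, D < 0 → ¬ IsSquare D := by
    rintro D h ⟨r, rfl⟩
    nlinarith [mul_self_nonneg r]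
  rcases hD with rfl | rfl | rfl | rfl | rfl
  · exact gdc0 z (by omega)
  · exact gdc2 z (by omega)
  · exact gdc1 z (by omega)
  · refine key 3 (by norm_num) ?_ (by simp; omega)
    rintro ⟨r, hr⟩
    have h1 : r < 2 := by nlinarith
    have h2 : -2 < r := by nlinarith
    interval_cases r <;> omega
  · exact key (-3) (by norm_num) (hneg _ (by norm_num)) (by simp; omega)

/-- the sum of the local weights of one form -/
lemma one_form (D : ℤ) (w : ℝ) (c z : ℕ) (hD : D = 0 ∨ D = 2 ∨ D = -1 ∨ D = 3 ∨ D = -3)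
    (hw : 0 ≤ w) (hz : 2 * c + 4 ≤ z) : ∃ C : ℝ, ∀ y, z < y →
    ∑ p ∈ PS z y, w * (1 + Jr D p) / ((p : ℝ) - c) ≤ w * Real.log (Real.log y) + C := by
  obtain ⟨K, hK, hsq⟩ := sum_inv_sq
  obtain ⟨C1, h1⟩ := gdcD D hD z (by omega)
  obtain ⟨C0, hC0, hmer⟩ := mertens
  refine ⟨w * (C0 + |C1|) + 4 * w * c * K, fun y hy => ?_⟩
  have h2 : ∑ p ∈ PS z y, (1 + Jr D p) / (p : ℝ) =
      ∑ p ∈ PS z y, 1 / (p : ℝ) + ∑ p ∈ PS z y, Jr D p / (p : ℝ) := by
    rw [← sum_add_distrib]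
    apply sum_congr rfl
    intro p _
    ring
  have h3 := hmer z y (by omega)
  have h4 := h1 y hy
  have h5 := le_abs_self C1
  have h6 : ∑ p ∈ PS z y, (1 + Jr D p) / (p : ℝ) ≤ Real.log (Real.log y) + (C0 + |C1|) := by
    rw [h2]; linarith
  have hterm : ∀ p ∈ PS z y, w * (1 + Jr D p) / ((p : ℝ) - c) ≤
      w * ((1 + Jr D p) / p) + 4 * w * c * (1 / (p : ℝ) ^ 2) := by
    intro p hp
    have hp1 : z < p := PS_lt hp
    have hp2 : (2 * c + 4 : ℝ) ≤ p := by exact_mod_cast (by omega : 2 * c + 4 ≤ p)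
    have hc : (0 : ℝ) ≤ c := Nat.cast_nonneg c
    have hp0 : (0 : ℝ) < p := by linarith
    have hpc : (0 : ℝ) < (p : ℝ) - c := by linarith
    have hJ0 := one_add_Jr_nonneg D p
    have hJ2 := one_add_Jr_le D p
    have e : w * (1 + Jr D p) / ((p : ℝ) - c) =
        w * ((1 + Jr D p) / p) + w * ((1 + Jr D p) * c / (p * ((p : ℝ) - c))) := by
      field_simp
      ring
    rw [e]
    have h7 : (1 + Jr D p) * c / (p * ((p : ℝ) - c)) ≤ 4 * c * (1 / (p : ℝ) ^ 2) := by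
      rw [mul_one_div, div_le_div_iff₀ (by positivity) (by positivity)]
      have h8 : (p : ℝ) ≤ 2 * ((p : ℝ) - c) := by linarith
      have h9 : (1 + Jr D p) * c ≤ 2 * c := mul_le_mul_of_nonneg_right hJ2 hc
      calc (1 + Jr D p) * c * (p : ℝ) ^ 2 ≤ 2 * c * (p : ℝ) ^ 2 :=
            mul_le_mul_of_nonneg_right h9 (by positivity)
        _ = 2 * c * p * p := by ring
        _ ≤ 2 * c * p * (2 * ((p : ℝ) - c)) := mul_le_mul_of_nonneg_left h8 (by positivity)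
        _ = 4 * c * (p * ((p : ℝ) - c)) := by ring
    have h10 := mul_le_mul_of_nonneg_left h7 hw
    nlinarith [h10]
  calc _ ≤ ∑ p ∈ PS z y, (w * ((1 + Jr D p) / p) + 4 * w * c * (1 / (p : ℝ) ^ 2)) :=
        Finset.sum_le_sum hterm
    _ = w * ∑ p ∈ PS z y, (1 + Jr D p) / (p : ℝ) +
        4 * w * c * ∑ p ∈ PS z y, 1 / (p : ℝ) ^ 2 := by
        rw [Finset.sum_add_distrib, Finset.mul_sum, Finset.mul_sum]
    _ ≤ w * (Real.log (Real.log y) + (C0 + |C1|)) + 4 * w * c * K := by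
        refine add_le_add (mul_le_mul_of_nonneg_left h6 hw)
          (mul_le_mul_of_nonneg_left (hsq _) (by positivity))
    _ = _ := by ring

theorem t_T : S_T := by
  intro n D w c z hD hw hz
  have hex : ∀ j, ∃ C : ℝ, ∀ y, z < y →
      ∑ p ∈ PS z y, w j * (1 + Jr (D j) p) / ((p : ℝ) - c) ≤
        w j * Real.log (Real.log y) + C := fun j => one_form (D j) (w j) c z (hD j) (hw j) hz
  choose C hC using hex
  refine ⟨Real.exp (∑ j, C j), fun y hy => ?_⟩
  have hlog : 0 < Real.log y := Real.log_pos (by exact_mod_cast (by omega : 1 < y))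
  have e1 : ∑ s ∈ Tup (Fin n) z y, ∏ j, gr (D j) (w j) c (s j) =
      ∏ p ∈ PS z y, (1 + ∑ j, w j * (1 + Jr (D j) p) / ((p : ℝ) - c)) :=
    sum_Tup_prod z y (fun j p => w j * (1 + Jr (D j) p) / ((p : ℝ) - c))
  have hnn : ∀ p ∈ PS z y, 0 ≤ ∑ j, w j * (1 + Jr (D j) p) / ((p : ℝ) - c) := by
    intro p hp
    have hp1 : z < p := PS_lt hp
    refine Finset.sum_nonneg fun j _ => ?_
    have hpc : (c : ℝ) < p := by exact_mod_cast (by omega : c < p)
    exact div_nonneg (mul_nonneg (hw j) (one_add_Jr_nonneg _ _)) (by linarith)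
  rw [e1]
  calc ∏ p ∈ PS z y, (1 + ∑ j, w j * (1 + Jr (D j) p) / ((p : ℝ) - c)) ≤
        ∏ p ∈ PS z y, Real.exp (∑ j, w j * (1 + Jr (D j) p) / ((p : ℝ) - c)) := by
        refine Finset.prod_le_prod (fun p hp => ?_) (fun p hp => ?_)
        · have := hnn p hp
          linarith
        · rw [add_comm]
          exact Real.add_one_le_exp _
    _ = Real.exp (∑ j, ∑ p ∈ PS z y, w j * (1 + Jr (D j) p) / ((p : ℝ) - c)) := by
        rw [← Real.exp_sum, Finset.sum_comm]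
    _ ≤ Real.exp (∑ j, (w j * Real.log (Real.log y) + C j)) :=
        Real.exp_le_exp.2 (Finset.sum_le_sum fun j _ => hC j y hy)
    _ = Real.exp (∑ j, C j) * (Real.log y) ^ (∑ j, w j) := by
        rw [Finset.sum_add_distrib, ← Finset.sum_mul, Real.exp_add, mul_comm,
          Real.rpow_def_of_pos hlog, mul_comm (Real.log (Real.log y))]

end Pool.Agent.V7H83.CY
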